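import Pool.Agent.Q138.PS.UV
import Pool.Agent.Q138.PS.UC
import Pool.Agent.Results.MP_e3f158_nt.AllTypesAtOnce

/-!
# Counting the `i ≤ N` for which the assertion holds for `⌊α P(i)⌋`

Helper of the hand-ins `AllTypesRealMultiples` and `ZeroTypesRealMultiples` (a joined theorem of helper138).
-/

set_option autoImplicit false

namespace Pool.Agent.Q151.Sp.Types

open Finset Filter Topology
open Pool.Agent.Q138.PS
open Pool.Agent.Results.MP_e3f158_nt.AllTypesAtOnce (HasRep f₂)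

/-- `2 n` has a representation of type `(a, b)` for all `a`, `b` in the set `S` with `f₂(a, b) ≤ n` -/
def Full (S : Set (ℕ × ℕ)) (n : ℕ) : Prop := ∀ a b : ℕ, (a, b) ∈ S → f₂ a b ≤ n → HasRep a b (2 * n)

open Classical in
/-- the number of the `1 ≤ i ≤ N` for which `⌊α P(i)⌋` is `Full S` -/
noncomputable def count (S : Set (ℕ × ℕ)) (α : ℝ) (P : Polynomial ℤ) (N : ℕ) : ℕ :=
  ((Icc 1 N).filter fun i : ℕ => Full S ⌊α * ((P.eval (i : ℤ) : ℤ) : ℝ)⌋₊).card

theorem count_eq (S : Set (ℕ × ℕ)) (α : ℝ) (P : Polynomial ℤ) (N : ℕ) : (count S α P N : ℝ) = cnP (Full S) α P N := by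
  classical
  unfold count cnP cn
  refine congrArg _ (congrArg _ ?_)
  ext n
  simp only [mem_filter]

theorem cn_ge (X : ℕ → Prop) (y : ℕ) : ({n : ℕ | n ≤ y ∧ X n}.ncard : ℝ) ≤ cn X y + 1 := by
  rw [cn_ncard]
  have h3 : {n : ℕ | n ≤ y ∧ X n} ⊆ insert 0 {n : ℕ | 1 ≤ n ∧ n ≤ y ∧ X n} := by
    rintro n ⟨h1, h2⟩
    rcases Nat.eq_zero_or_pos n with h | h
    · exact Or.inl h
    · exact Or.inr ⟨h, h1, h2⟩
  have hfin : {n : ℕ | 1 ≤ n ∧ n ≤ y ∧ X n}.Finite := (Set.finite_Iic y).subset fun m hm => hm.2.1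
  have h4 := (Set.ncard_le_ncard h3 (hfin.insert 0)).trans (Set.ncard_insert_le _ _)
  exact_mod_cast h4

end Pool.Agent.Q151.Sp.Types
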